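import Mathlib
import Pool.Agent.Q281.Chrom.Sym

set_option autoImplicit false

/-!
# Symmetric decomposition of the chromatic numerator polynomial (MP_9dade1_co)
-/

namespace Pool.Agent.Results.MP_9dade1_co.SymmetricDecomposition

open Finset Polynomial

/-- The number `χ_G(n)` of proper colourings of `G` with `n` colours. -/
noncomputable def chi {V : Type} (G : SimpleGraph V) (n : ℕ) : ℕ :=
  Nat.card (G.Coloring (Fin n))

/-- `h_G(z) = (1 - z)^(d + 1) * ∑ χ_G(n) z^n` as a power series, `d` the number of vertices. -/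
noncomputable def hSeries {V : Type} [Fintype V] (G : SimpleGraph V) : PowerSeries ℤ :=
  PowerSeries.mk (fun n => (chi G n : ℤ)) * (1 - PowerSeries.X) ^ (Fintype.card V + 1)

/-- `p` is `m`-symmetric: `p(z) = z^m p(1/z)`. -/
def IsSym (m : ℕ) (p : ℤ[X]) : Prop := p.natDegree ≤ m ∧ ∀ i ≤ m, p.coeff i = p.coeff (m - i)

theorem coeff_sum_monomial (n : ℕ) (f : ℕ → ℤ) (i : ℕ) :
    (∑ j ∈ range n, monomial j (f j)).coeff i = if i < n then f i else 0 := by
  rw [finsetSum_coeff]
  simp only [coeff_monomial]
  rw [sum_ite_eq']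
  simp [mem_range]

theorem natDegree_sum_monomial (n : ℕ) (f : ℕ → ℤ) :
    (∑ j ∈ range (n + 1), monomial j (f j)).natDegree ≤ n := by
  rw [natDegree_le_iff_coeff_eq_zero]
  intro i hi
  rw [coeff_sum_monomial, if_neg (by omega)]

/-- For every finite simple graph `G` on `d ≥ 1` vertices, `h_G = a + z b` with `a`
`d`-symmetric, `b` `(d-1)`-symmetric, all coefficients of `a` nonpositive and all coefficients
of `b` nonnegative. -/
theorem result : ∀ (V : Type) [Fintype V] (G : SimpleGraph V), 1 ≤ Fintype.card V →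
    ∃ a b : ℤ[X], hSeries G = ((a + X * b : ℤ[X]) : PowerSeries ℤ) ∧
      IsSym (Fintype.card V) a ∧ IsSym (Fintype.card V - 1) b ∧
      (∀ i, a.coeff i ≤ 0) ∧ (∀ i, 0 ≤ b.coeff i) := by
  classical
  intro V _ G hV
  set d := Fintype.card V with hd
  have h1 : hSeries G = Q281.Chrom.hs G := by
    rw [hSeries, Q281.Chrom.hs]
    simp only [chi, Q281.Chrom.card_coloring]
  set g : ℕ → ℤ := Q281.Chrom.hc G with hg
  set H : ℕ → ℤ := fun i => ∑ j ∈ range i, g j with hH
  have hHs : ∀ i, H (i + 1) = H i + g i := fun i => sum_range_succ _ _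
  have hH0 : H 0 = 0 := sum_range_zero _
  have hSS : ∀ i, i ≤ d → 0 ≤ H (d + 1) - H (d + 1 - i) - H (i + 1) := by
    intro i hi
    have h2 := Q281.Chrom.SS_nonneg hV G i hi
    rw [Q281.Chrom.SS] at h2
    have h3 : ∀ i, i ≤ d + 1 → ∑ j ∈ range i, g (d - j) = H (d + 1) - H (d + 1 - i) := by
      intro i
      induction i with
      | zero => intro _; simp
      | succ i ih =>
        intro hi
        rw [sum_range_succ, ih (by omega)]
        have h4 : d + 1 - i = (d - i) + 1 := by omega
        have h5 : d + 1 - (i + 1) = d - i := by omega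
        rw [h4, h5, hHs (d - i)]
        ring
    rw [← h3 i (by omega)]
    exact h2
  have hpos : ∀ i, 0 ≤ g i := fun i => Q281.Chrom.coeff_hs_nonneg G hV i
  refine ⟨∑ i ∈ range (d + 1), monomial i (H (i + 1) - H (d + 1) + H (d + 1 - i)),
    ∑ i ∈ range (d - 1 + 1), monomial i (H (d + 1) - H (d - i) - H (i + 1)), ?_, ?_, ?_, ?_, ?_⟩
  · rw [h1]
    ext i
    rw [Polynomial.coeff_coe, coeff_add, coeff_sum_monomial]
    change g i = _
    cases i with
    | zero =>
      rw [mul_coeff_zero, coeff_X_zero, zero_mul, if_pos (by omega), Nat.sub_zero, hHs 0, hH0]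
      ring
    | succ i =>
      rw [coeff_X_mul, coeff_sum_monomial]
      by_cases hi : i + 1 < d + 1
      · rw [if_pos hi, if_pos (by omega)]
        have h4 : d + 1 - (i + 1) = d - i := by omega
        rw [h4, hHs (i + 1)]
        ring
      · rw [if_neg hi, if_neg (by omega)]
        have : g (i + 1) = 0 := Q281.Chrom.coeff_hs_zero_of_lt G hV (by omega)
        rw [this]
        ring
  · refine ⟨natDegree_sum_monomial _ _, fun i hi => ?_⟩
    rw [coeff_sum_monomial, coeff_sum_monomial, if_pos (by omega), if_pos (by omega)]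
    have h4 : d + 1 - (d - i) = i + 1 := by omega
    have h5 : d - i + 1 = d + 1 - i := by omega
    rw [h4, h5]
    ring
  · refine ⟨natDegree_sum_monomial _ _, fun i hi => ?_⟩
    rw [coeff_sum_monomial, coeff_sum_monomial, if_pos (by omega), if_pos (by omega)]
    have h4 : d - (d - 1 - i) = i + 1 := by omega
    have h5 : d - 1 - i + 1 = d - i := by omega
    rw [h4, h5]
    ring
  · intro i
    rw [coeff_sum_monomial]
    split_ifs with hi
    · have := hSS i (by omega)
      linarith
    · exact le_rfl
  · intro i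
    rw [coeff_sum_monomial]
    split_ifs with hi
    · have h2 := hSS i (by omega)
      have h4 : d + 1 - i = (d - i) + 1 := by omega
      rw [h4, hHs (d - i)] at h2
      have := hpos (d - i)
      linarith
    · exact le_rfl

end Pool.Agent.Results.MP_9dade1_co.SymmetricDecomposition
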